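import Pool.Agent.H93.RB.PRB

/-!
# Random Borsuk graph: part CAP (measure of caps, number of separated points)
-/

set_option autoImplicit false

open scoped ENNReal Topology Pointwise
open MeasureTheory Filter Metric Set

namespace Pool.Agent.H93.RB

open Pool.Agent.H3.RB

/-- (i) the number of separated points. -/
theorem card_sep (d : ℕ) (s : ℝ) (Z : Finset (Sph d)) (hs : 0 < s) (hs1 : s ≤ 1)
    (hsep : ∀ p ∈ Z, ∀ q ∈ Z, p ≠ q → s ≤ ‖(p : EE d) - q‖) :
    (Z.card : ℝ) ≤ ((d + 1) * (3 / 2) ^ d * 2 ^ (d + 1)) / s ^ d := by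
  have h := pack (d := d) (t := s / 2) (by positivity) Z
    (fun p hp q hq hpq => by have := hsep p hp q hq hpq; linarith)
    (ball (0 : EE d) (1 + s / 2) \ ball (0 : EE d) (1 - s / 2))
    (fun p hp v hv => by
      have h1 : ‖(p : EE d)‖ = 1 := by simp
      rw [mem_ball, dist_eq_norm] at hv
      refine ⟨?_, ?_⟩
      · rw [mem_ball_zero_iff]
        have : ‖v‖ ≤ ‖v - p‖ + ‖(p : EE d)‖ := by
          simpa using norm_add_le (v - p) (p : EE d)
        linarith
      · rw [mem_ball_zero_iff]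
        have : ‖(p : EE d)‖ ≤ ‖v‖ + ‖v - p‖ := by
          have := norm_add_le v ((p : EE d) - v)
          rw [add_sub_cancel, norm_sub_rev] at this
          exact this
        linarith)
  have hsub : ball (0 : EE d) (1 - s / 2) ⊆ ball (0 : EE d) (1 + s / 2) :=
    ball_subset_ball (by linarith)
  rw [measure_sdiff hsub measurableSet_ball.nullMeasurableSet measure_ball_lt_top.ne,
    Measure.addHaar_ball (volume : Measure (EE d)) 0 (r := 1 + s / 2) (by positivity),
    Measure.addHaar_ball (volume : Measure (EE d)) 0 (r := 1 - s / 2) (by linarith),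
    ← ENNReal.sub_mul (fun _ _ => vol_ball_fin d), ← mul_assoc,
    ENNReal.mul_le_mul_iff_left (vol_ball_pos d) (vol_ball_fin d),
    ← ENNReal.ofReal_sub _ (pow_nonneg (by linarith) _)] at h
  have hfin : Module.finrank ℝ (EE d) = d + 1 := by simp
  rw [hfin] at h
  have hmono : (1 - s / 2) ^ (d + 1) ≤ (1 + s / 2) ^ (d + 1) :=
    pow_le_pow_left₀ (by linarith) (by linarith) _
  have h3 : (Z.card : ℝ) * (s / 2) ^ (d + 1) ≤ (1 + s / 2) ^ (d + 1) - (1 - s / 2) ^ (d + 1) := by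
    have h4 : ENNReal.ofReal ((Z.card : ℝ) * (s / 2) ^ (d + 1)) ≤
        ENNReal.ofReal ((1 + s / 2) ^ (d + 1) - (1 - s / 2) ^ (d + 1)) := by
      rw [ENNReal.ofReal_mul (by positivity), ENNReal.ofReal_natCast]
      exact h
    exact (ENNReal.ofReal_le_ofReal_iff (by linarith)).1 h4
  have h5 : (1 + s / 2) ^ (d + 1) - (1 - s / 2) ^ (d + 1) ≤ s * (d + 1) * (3 / 2) ^ d := by
    have h6 := abs_pow_sub_pow_le (1 + s / 2) (1 - s / 2) (d + 1)
    rw [abs_of_nonneg (by linarith : (0 : ℝ) ≤ (1 + s / 2) ^ (d + 1) - (1 - s / 2) ^ (d + 1)),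
      show (1 + s / 2) - (1 - s / 2) = s by ring, abs_of_pos hs,
      abs_of_nonneg (by linarith : (0 : ℝ) ≤ 1 + s / 2),
      abs_of_nonneg (by linarith : (0 : ℝ) ≤ 1 - s / 2), max_eq_left (by linarith)] at h6
    refine h6.trans ?_
    simp only [Nat.add_sub_cancel, Nat.cast_add, Nat.cast_one]
    gcongr
    linarith
  have h7 : (Z.card : ℝ) * (s / 2) ^ (d + 1) ≤ s * (d + 1) * (3 / 2) ^ d := h3.trans h5
  rw [le_div_iff₀ (by positivity)]
  have h8 : (0 : ℝ) < s / 2 ^ (d + 1) := by positivity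
  refine le_of_mul_le_mul_right ?_ h8
  calc (Z.card : ℝ) * s ^ d * (s / 2 ^ (d + 1)) = (Z.card : ℝ) * (s / 2) ^ (d + 1) := by
        rw [div_pow, pow_succ s d]; ring
    _ ≤ s * (d + 1) * (3 / 2) ^ d := h7
    _ = ((d + 1) * (3 / 2) ^ d * 2 ^ (d + 1)) * (s / 2 ^ (d + 1)) := by
        field_simp

theorem measurableSet_cap {d : ℕ} (x : Sph d) (s : ℝ) :
    MeasurableSet {p : Sph d | ‖(p : EE d) - x‖ < s} := by
  have : {p : Sph d | ‖(p : EE d) - x‖ < s} = ball x s := by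
    ext p
    simp [Subtype.dist_eq, dist_eq_norm]
  rw [this]
  exact measurableSet_ball

/-- (ii) all caps of radius `s` have the same measure. -/
theorem cap_le {d : ℕ} (x y : Sph d) (s : ℝ) :
    unif d {p | ‖(p : EE d) - x‖ < s} = unif d {p | ‖(p : EE d) - y‖ < s} := by
  have hn : ‖(x : EE d)‖ = ‖(y : EE d)‖ := by simp
  set A := ((ℝ ∙ ((x : EE d) - y))ᗮ).reflection with hA
  have hAx : A (x : EE d) = y := Submodule.reflection_sub hn
  have hAy : A (y : EE d) = x := by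
    rw [← hAx]; exact Submodule.reflection_reflection _ _
  have him : (A : EE d → EE d) ⁻¹'
      (Ioo (0 : ℝ) 1 • ((↑) '' {p : Sph d | ‖(p : EE d) - y‖ < s})) =
      Ioo (0 : ℝ) 1 • ((↑) '' {p : Sph d | ‖(p : EE d) - x‖ < s}) := by
    ext v
    simp only [Set.mem_preimage, Set.mem_smul, Set.mem_image, Set.mem_ofPred_eq]
    constructor
    · rintro ⟨r, hr, w, ⟨p, hp, rfl⟩, h⟩
      have hAp : ‖A (p : EE d)‖ = 1 := by rw [A.norm_map]; simp
      refine ⟨r, hr, A (p : EE d), ⟨⟨A (p : EE d), by simp⟩, ?_, rfl⟩, ?_⟩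
      · simp only
        rw [← hAy, ← map_sub, A.norm_map]
        exact hp
      · rw [← map_smul, h]
        exact Submodule.reflection_reflection _ _
    · rintro ⟨r, hr, w, ⟨p, hp, rfl⟩, h⟩
      have hAp : ‖A (p : EE d)‖ = 1 := by rw [A.norm_map]; simp
      refine ⟨r, hr, A (p : EE d), ⟨⟨A (p : EE d), by simp⟩, ?_, rfl⟩, ?_⟩
      · simp only
        rw [← hAx, ← map_sub, A.norm_map]
        exact hp
      · rw [← map_smul, h]
  have hmp : MeasurePreserving (A : EE d → EE d) volume volume := A.measurePreserving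
  have hv : volume (Ioo (0 : ℝ) 1 • ((↑) '' {p : Sph d | ‖(p : EE d) - x‖ < s}) : Set (EE d)) =
      volume (Ioo (0 : ℝ) 1 • ((↑) '' {p : Sph d | ‖(p : EE d) - y‖ < s}) : Set (EE d)) := by
    rw [← him]
    exact hmp.measure_preimage_equiv (f := A.toHomeomorph.toMeasurableEquiv) _
  simp only [unif, Measure.smul_apply, smul_eq_mul]
  rw [Measure.toSphere_apply' _ (measurableSet_cap x s),
    Measure.toSphere_apply' _ (measurableSet_cap y s), hv]

theorem CAP_proved : S_CAP := by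
  intro d hd
  set C : ℝ := (d + 1) * (3 / 2) ^ d * 2 ^ (d + 1) with hC
  have hCpos : 0 < C := by positivity
  refine ⟨1 / C, C, by positivity, hCpos, ?_, ?_⟩
  swap
  · intro s Z hs hs1 hsep
    exact card_sep d s Z hs hs1 hsep
  intro x s hs hs1
  have := PRB_proved d
  -- a maximal separated set
  let P : Finset (Sph d) → Prop := fun Z => ∀ p ∈ Z, ∀ q ∈ Z, p ≠ q → s ≤ ‖(p : EE d) - q‖
  obtain ⟨Z, hZ, hmax⟩ : ∃ Z, P Z ∧ ∀ Z', P Z' → Z'.card ≤ Z.card := by
    have hb : ∃ B : ℕ, ∀ n, (∃ Z, P Z ∧ Z.card = n) → n ≤ B := by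
      refine ⟨⌈C / s ^ d⌉₊, ?_⟩
      rintro n ⟨Z, hZ, rfl⟩
      have := card_sep d s Z hs hs1 hZ
      exact Nat.cast_le.1 (this.trans (Nat.le_ceil _))
    obtain ⟨B, hB⟩ := hb
    classical
    have hne : ∃ n, ∃ Z, P Z ∧ Z.card = n := ⟨0, ∅, by simp [P], rfl⟩
    obtain ⟨Z, hZ, hZc⟩ := Nat.findGreatest_spec (P := fun n => ∃ Z, P Z ∧ Z.card = n)
      (m := 0) (n := B) (Nat.zero_le _) ⟨∅, by simp [P], rfl⟩
    refine ⟨Z, hZ, fun Z' hZ' => ?_⟩
    rw [hZc]
    exact Nat.le_findGreatest (hB _ ⟨Z', hZ', rfl⟩) ⟨Z', hZ', rfl⟩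
  have hcov : (Set.univ : Set (Sph d)) ⊆ ⋃ z ∈ Z, {p | ‖(p : EE d) - z‖ < s} := by
    intro p _
    by_contra hcon
    simp only [Set.mem_iUnion, Set.mem_ofPred_eq, not_exists, not_lt] at hcon
    classical
    have hpZ : p ∉ Z := by
      intro hp
      have := hcon p hp
      simp at this
      linarith
    have hP : P (insert p Z) := by
      intro a ha b hb hab
      rw [Finset.mem_insert] at ha hb
      rcases ha with rfl | ha <;> rcases hb with rfl | hb
      · exact absurd rfl hab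
      · exact hcon b hb
      · rw [norm_sub_rev]; exact hcon a ha
      · exact hZ a ha b hb hab
    have := hmax _ hP
    rw [Finset.card_insert_of_notMem hpZ] at this
    omega
  have h1 : (1 : ℝ≥0∞) ≤ (Z.card : ℝ≥0∞) * unif d {p | ‖(p : EE d) - x‖ < s} := by
    calc (1 : ℝ≥0∞) = unif d Set.univ := measure_univ.symm
      _ ≤ unif d (⋃ z ∈ Z, {p | ‖(p : EE d) - z‖ < s}) := measure_mono hcov
      _ ≤ ∑ z ∈ Z, unif d {p | ‖(p : EE d) - z‖ < s} := measure_biUnion_finset_le _ _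
      _ = ∑ z ∈ Z, unif d {p | ‖(p : EE d) - x‖ < s} := Finset.sum_congr rfl
          fun z _ => cap_le z x s
      _ = (Z.card : ℝ≥0∞) * unif d {p | ‖(p : EE d) - x‖ < s} := by
          rw [Finset.sum_const, nsmul_eq_mul]
  have h2 : (Z.card : ℝ) ≤ C / s ^ d := card_sep d s Z hs hs1 hZ
  have h3 : (1 : ℝ≥0∞) ≤ ENNReal.ofReal (C / s ^ d) * unif d {p | ‖(p : EE d) - x‖ < s} := by
    refine h1.trans ?_
    gcongr
    rw [← ENNReal.ofReal_natCast]
    exact ENNReal.ofReal_le_ofReal h2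
  calc ENNReal.ofReal (1 / C * s ^ d)
      = ENNReal.ofReal (1 / C * s ^ d) * 1 := (mul_one _).symm
    _ ≤ ENNReal.ofReal (1 / C * s ^ d) *
        (ENNReal.ofReal (C / s ^ d) * unif d {p | ‖(p : EE d) - x‖ < s}) := by gcongr
    _ = unif d {p | ‖(p : EE d) - x‖ < s} := by
        rw [← mul_assoc, ← ENNReal.ofReal_mul (by positivity),
          show 1 / C * s ^ d * (C / s ^ d) = 1 by field_simp, ENNReal.ofReal_one, one_mul]

end Pool.Agent.H93.RB
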