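import Pool.Agent.H3.RB.Stm
import Pool.Graph.R_pool_sql_team_39128cda.Lib.helper9_.BorsukUlam

/-!
# Random Borsuk graph: part LS (Lyusternik-Shnirelman from Borsuk-Ulam)
-/

set_option autoImplicit false

open Metric Set

namespace Pool.Agent.H93.RB

open Pool.Agent.H3.RB

theorem LS_proved : S_LS := by
  rintro d b - hb ⟨c, hc⟩
  let A : Fin d → Set (EE d) := fun i => {v | ∃ p : Sph d, (p : EE d) = v ∧ c p = i.succ}
  let f : EE d → (Fin d → ℝ) := fun v i => infDist v (A i) - infDist (-v) (A i)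
  have hf : Continuous f := by
    refine continuous_pi fun i => ?_
    exact (continuous_infDist_pt _).sub ((continuous_infDist_pt _).comp continuous_neg)
  obtain ⟨v, hv, h0⟩ := Pool.Agent.Lib.helper9.BorsukUlam.borsuk_ulam (E := EE d)
    (F := Fin d → ℝ) (Or.inr (by simp)) f hf.continuousOn (fun x _ => by
      funext i
      simp [f])
  have key : ∀ w : Sph d, (∀ i, infDist (w : EE d) (A i) = infDist (-(w : EE d)) (A i)) →
      c w = 0 := by
    intro w hw
    by_contra hne
    obtain ⟨i, hi⟩ := Fin.exists_succ_eq.2 hne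
    have hmem : (w : EE d) ∈ A i := ⟨w, rfl, hi.symm⟩
    have h1 : infDist (-(w : EE d)) (A i) = 0 := by
      rw [← hw i]; exact infDist_zero_of_mem hmem
    obtain ⟨q, ⟨q', rfl, hq⟩, hqd⟩ := (infDist_lt_iff ⟨_, hmem⟩).1 (h1.trans_lt hb)
    refine hc w trivial q' trivial ?_ (hi.symm.trans hq.symm)
    rw [dist_eq_norm, ← norm_neg] at hqd
    have e : (w : EE d) + q' = -(-(w : EE d) - q') := by abel
    rw [e]
    exact hqd
  have hvs : v ∈ Metric.sphere (0 : EE d) 1 := by simpa using hv
  have hvs' : -v ∈ Metric.sphere (0 : EE d) 1 := by simpa using hv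
  have hi : ∀ i, infDist v (A i) = infDist (-v) (A i) := by
    intro i
    have := congrFun h0 i
    simp only [f, Pi.zero_apply] at this
    linarith
  have e1 := key ⟨v, hvs⟩ hi
  have e2 := key ⟨-v, hvs'⟩ (fun i => by simpa using (hi i).symm)
  exact hc ⟨v, hvs⟩ trivial ⟨-v, hvs'⟩ trivial (by simpa using hb) (e1.trans e2.symm)

end Pool.Agent.H93.RB
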