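import Pool.Agent.H3.RB.Stm

/-!
# Random Borsuk graph: parts PRB and PCK (the uniform distribution is a probability measure, local
packing bound by volume)
-/

set_option autoImplicit false

open scoped ENNReal Topology Pointwise
open MeasureTheory Filter Metric Set

namespace Pool.Agent.H93.RB

open Pool.Agent.H3.RB

theorem PRB_proved : S_PRB := by
  intro d
  refine ⟨?_⟩
  have h0 : (volume : Measure (EE d)).toSphere Set.univ ≠ 0 := by
    rw [Ne, Measure.measure_univ_eq_zero]
    exact Measure.toSphere_ne_zero _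
  have h1 : (volume : Measure (EE d)).toSphere Set.univ ≠ ⊤ := measure_ne_top _ _
  simp only [unif, Measure.smul_apply, smul_eq_mul]
  exact ENNReal.inv_mul_cancel h0 h1

/-- Volume packing: disjoint balls of radius `t` contained in a set `A`. -/
theorem pack {d : ℕ} {t : ℝ} (ht : 0 < t) (Z : Finset (Sph d))
    (hZ : ∀ p ∈ Z, ∀ q ∈ Z, p ≠ q → 2 * t ≤ ‖(p : EE d) - q‖) (A : Set (EE d))
    (hA : ∀ p ∈ Z, ball (p : EE d) t ⊆ A) :
    (Z.card : ℝ≥0∞) * (ENNReal.ofReal (t ^ (d + 1)) * volume (ball (0 : EE d) 1)) ≤ volume A := by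
  have hd : (Z : Set (Sph d)).PairwiseDisjoint (fun p => ball (p : EE d) t) := by
    intro p hp q hq hpq
    refine ball_disjoint_ball ?_
    have := hZ p hp q hq hpq
    rw [dist_eq_norm]; linarith
  have h1 : volume (⋃ p ∈ Z, ball (p : EE d) t) = ∑ p ∈ Z, volume (ball (p : EE d) t) :=
    measure_biUnion_finset hd (fun p _ => measurableSet_ball)
  have h2 : ∀ p ∈ Z, volume (ball (p : EE d) t) =
      ENNReal.ofReal (t ^ (d + 1)) * volume (ball (0 : EE d) 1) := by
    intro p _
    rw [Measure.addHaar_ball _ _ ht.le]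
    simp
  rw [Finset.sum_congr rfl h2, Finset.sum_const, nsmul_eq_mul] at h1
  rw [← h1]
  exact measure_mono (Set.iUnion₂_subset hA)

theorem vol_ball_pos (d : ℕ) : volume (ball (0 : EE d) 1) ≠ 0 :=
  (measure_ball_pos _ _ one_pos).ne'

theorem vol_ball_fin (d : ℕ) : volume (ball (0 : EE d) 1) ≠ ⊤ := measure_ball_lt_top.ne

theorem PCK_proved : S_PCK := by
  intro d s R x Z hs hR hsep hloc
  have h := pack (d := d) (t := s / 2) (by positivity) Z
    (fun p hp q hq hpq => by have := hsep p hp q hq hpq; linarith) (ball x (R + s / 2))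
    (fun p hp => by
      refine ball_subset_ball' ?_
      have := hloc p hp
      rw [dist_eq_norm]; linarith)
  rw [Measure.addHaar_ball volume x (by positivity), ← mul_assoc,
    ENNReal.mul_le_mul_iff_left (vol_ball_pos d) (vol_ball_fin d)] at h
  have h3 : (Z.card : ℝ) * (s / 2) ^ (d + 1) ≤ (R + s / 2) ^ (d + 1) := by
    have h4 : ENNReal.ofReal ((Z.card : ℝ) * (s / 2) ^ (d + 1)) ≤
        ENNReal.ofReal ((R + s / 2) ^ (d + 1)) := by
      rw [ENNReal.ofReal_mul (by positivity), ENNReal.ofReal_natCast]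
      simpa using h
    exact (ENNReal.ofReal_le_ofReal_iff (by positivity)).1 h4
  have h5 : (0 : ℝ) < (s / 2) ^ (d + 1) := by positivity
  have h6 : (1 + 2 * R / s) ^ (d + 1) * (s / 2) ^ (d + 1) = (R + s / 2) ^ (d + 1) := by
    rw [← mul_pow]
    congr 1
    field_simp
    ring
  rw [← h6] at h3
  exact le_of_mul_le_mul_right h3 h5

end Pool.Agent.H93.RB
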