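import Pool.Agent.H3.RB.Stm

/-!
# Random Borsuk graph: part ASA (real asymptotics)
-/

set_option autoImplicit false

open Filter Topology Real

namespace Pool.Agent.H93.RB

open Pool.Agent.H3.RB

theorem ASA_proved : S_ASA := by
  intro γ k hγ hγ1 hk
  -- log n / n → 0, (log n)^2 / n → 0, n^(1-γ) / log n → ∞
  have h1 : Tendsto (fun n : ℕ => Real.log n / n) atTop (𝓝 0) := by
    have := (Real.isLittleO_log_id_atTop.comp_tendsto tendsto_natCast_atTop_atTop).tendsto_div_nhds_zero
    simpa [Function.comp_def] using this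
  have h2 : Tendsto (fun n : ℕ => Real.log n ^ 2 / n) atTop (𝓝 0) := by
    have := ((isLittleO_pow_log_id_atTop (n := 2)).comp_tendsto
      tendsto_natCast_atTop_atTop).tendsto_div_nhds_zero
    simpa [Function.comp_def] using this
  have h3 : Tendsto (fun n : ℕ => (n : ℝ) ^ (1 - γ) / Real.log n) atTop atTop := by
    have h4 : Tendsto (fun n : ℕ => Real.log n / (n : ℝ) ^ (1 - γ)) atTop (𝓝 0) := by
      have := ((isLittleO_log_rpow_atTop (r := 1 - γ) (by linarith)).comp_tendsto
        tendsto_natCast_atTop_atTop).tendsto_div_nhds_zero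
      simpa [Function.comp_def] using this
    have h5 : Tendsto (fun n : ℕ => Real.log n / (n : ℝ) ^ (1 - γ)) atTop (𝓝[>] 0) := by
      refine tendsto_nhdsWithin_iff.2 ⟨h4, ?_⟩
      filter_upwards [eventually_ge_atTop 2] with n hn
      have : (1 : ℝ) < n := by exact_mod_cast hn
      exact div_pos (Real.log_pos this) (Real.rpow_pos_of_pos (by linarith) _)
    have h6 := tendsto_inv_nhdsGT_zero.comp h5
    refine h6.congr fun n => ?_
    simp only [Function.comp_apply, inv_div]
  have h7 : Tendsto (fun n : ℕ => k * Real.exp (-1) * ((n : ℝ) ^ (1 - γ) / Real.log n))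
      atTop atTop := h3.const_mul_atTop (by positivity)
  refine tendsto_atTop_mono' _ ?_ h7
  have ev1 : ∀ᶠ n : ℕ in atTop, Real.log n / n < 1 / 2 := h1.eventually_lt_const (by norm_num)
  have ev2 : ∀ᶠ n : ℕ in atTop, Real.log n ^ 2 / n < 1 / 2 := h2.eventually_lt_const (by norm_num)
  filter_upwards [ev1, ev2, eventually_ge_atTop 2] with n e1 e2 hn
  have hn1 : (1 : ℝ) < n := by exact_mod_cast hn
  have hn0 : (0 : ℝ) < n := by linarith
  have hlog : 0 < Real.log n := Real.log_pos hn1
  set t : ℝ := γ * (Real.log n / n) with ht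
  have ht0 : 0 ≤ t := by positivity
  have htl : t ≤ Real.log n / n := by
    rw [ht]
    have : 0 ≤ Real.log n / n := by positivity
    nlinarith
  have ht1 : t < 1 / 2 := htl.trans_lt e1
  -- exp (-(t + 2 t^2)) ≤ 1 - t
  have h8 : Real.exp (-(t + 2 * t ^ 2)) ≤ 1 - t := by
    have h9 : Real.log (1 - t) ≥ -(t + 2 * t ^ 2) := by
      have h10 := Real.one_sub_inv_le_log_of_pos (x := 1 - t) (by linarith)
      have h11 : 1 - (1 - t)⁻¹ ≥ -(t + 2 * t ^ 2) := by
        have h12 : (1 - t)⁻¹ ≤ 1 + t + 2 * t ^ 2 := by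
          rw [inv_le_comm₀ (by linarith) (by positivity)]
          rw [inv_le_iff_one_le_mul₀ (by positivity)]
          nlinarith [mul_nonneg (sq_nonneg t) (by linarith : (0:ℝ) ≤ 1 - 2 * t)]
        linarith
      linarith
    calc Real.exp (-(t + 2 * t ^ 2)) ≤ Real.exp (Real.log (1 - t)) := Real.exp_le_exp.2 h9
      _ = 1 - t := Real.exp_log (by linarith)
  have h13 : Real.exp (-1) * (n : ℝ) ^ (-γ) ≤ (1 - t) ^ n := by
    calc Real.exp (-1) * (n : ℝ) ^ (-γ) = Real.exp (-1 + Real.log n * (-γ)) := by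
          rw [Real.rpow_def_of_pos hn0, ← Real.exp_add]
      _ ≤ Real.exp (n * (-(t + 2 * t ^ 2))) := by
          apply Real.exp_le_exp.2
          have h14 : (n : ℝ) * t = γ * Real.log n := by rw [ht]; field_simp
          have h15 : (n : ℝ) * (2 * t ^ 2) ≤ 1 := by
            have h16 : t ^ 2 ≤ (Real.log n / n) ^ 2 := pow_le_pow_left₀ ht0 htl 2
            have h17 : (n : ℝ) * (2 * (Real.log n / n) ^ 2) = 2 * (Real.log n ^ 2 / n) := by
              field_simp
            calc (n : ℝ) * (2 * t ^ 2) ≤ (n : ℝ) * (2 * (Real.log n / n) ^ 2) := by gcongr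
              _ = 2 * (Real.log n ^ 2 / n) := h17
              _ ≤ 1 := by linarith
          nlinarith
      _ = (Real.exp (-(t + 2 * t ^ 2))) ^ n := by rw [← Real.exp_nat_mul]
      _ ≤ (1 - t) ^ n := pow_le_pow_left₀ (Real.exp_pos _).le h8 n
  calc k * Real.exp (-1) * ((n : ℝ) ^ (1 - γ) / Real.log n)
      = k * ((n : ℝ) / Real.log n) * (Real.exp (-1) * (n : ℝ) ^ (-γ)) := by
        rw [sub_eq_add_neg, Real.rpow_add hn0, Real.rpow_one]
        ring
    _ ≤ k * ((n : ℝ) / Real.log n) * (1 - t) ^ n := by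
        apply mul_le_mul_of_nonneg_left h13
        positivity

end Pool.Agent.H93.RB
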